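import Pool.Agent.Q38.BP.Step
import Pool.Agent.Q38.BP.Table

/-!
# Ball partitioning with weights 5, 3, 3, 2, 2, 0: four copies
-/

set_option autoImplicit false
set_option maxRecDepth 100000

namespace Pool.Agent.Q38.BP

/-- `d` copies of each of `5, 3, 3, 2, 2, 0` can be put into six bins, `d` balls each, the sum in bin
`i` being at most `C i` (`x, y, z, u` count the balls of weight `5, 3, 2, 0`) -/
def Good (d : ℕ) (C : Fin 6 → ℤ) : Prop :=
  ∃ x y z u : Fin 6 → ℕ, (∀ i, x i + y i + z i + u i = d) ∧ ∑ i, x i = d ∧ ∑ i, y i = 2 * d ∧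
    ∑ i, z i = 2 * d ∧ ∑ i, u i = d ∧ ∀ i, 5 * (x i : ℤ) + 3 * (y i : ℤ) + 2 * (z i : ℤ) ≤ C i

theorem Good.mono {d : ℕ} {C C' : Fin 6 → ℤ} (h : Good d C) (hC : ∀ i, C i ≤ C' i) : Good d C' := by
  obtain ⟨x, y, z, u, h1, h2, h3, h4, h5, h6⟩ := h
  exact ⟨x, y, z, u, h1, h2, h3, h4, h5, fun i => (h6 i).trans (hC i)⟩

theorem Good.perm {d : ℕ} {C : Fin 6 → ℤ} (σ : Equiv.Perm (Fin 6)) (h : Good d (C ∘ σ)) :
    Good d C := by
  obtain ⟨x, y, z, u, h1, h2, h3, h4, h5, h6⟩ := h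
  refine ⟨x ∘ σ.symm, y ∘ σ.symm, z ∘ σ.symm, u ∘ σ.symm, fun i => h1 _, ?_, ?_, ?_, ?_, ?_⟩
  · rw [← h2]
    exact Equiv.sum_comp σ.symm x
  · rw [← h3]
    exact Equiv.sum_comp σ.symm y
  · rw [← h4]
    exact Equiv.sum_comp σ.symm z
  · rw [← h5]
    exact Equiv.sum_comp σ.symm u
  · intro i
    have := h6 (σ.symm i)
    simpa using this

/-- one more copy of each ball -/
theorem Good.step {d : ℕ} {C : Fin 6 → ℤ}
    (h : Good d (fun i => C i - (![5, 3, 3, 2, 2, 0] : Fin 6 → ℤ) i)) : Good (d + 1) C := by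
  obtain ⟨x, y, z, u, h1, h2, h3, h4, h5, h6⟩ := h
  refine ⟨x + ![1, 0, 0, 0, 0, 0], y + ![0, 1, 1, 0, 0, 0], z + ![0, 0, 0, 1, 1, 0],
    u + ![0, 0, 0, 0, 0, 1], ?_, ?_, ?_, ?_, ?_, ?_⟩
  · intro i
    have := h1 i
    fin_cases i <;> simp at this ⊢ <;> omega
  · simp only [Pi.add_apply, Finset.sum_add_distrib, h2]
    rfl
  · simp only [Pi.add_apply, Finset.sum_add_distrib, h3]
    simp [Fin.sum_univ_six]
    omega
  · simp only [Pi.add_apply, Finset.sum_add_distrib, h4]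
    simp [Fin.sum_univ_six]
    omega
  · simp only [Pi.add_apply, Finset.sum_add_distrib, h5]
    simp [Fin.sum_univ_six]
  · intro i
    have := h6 i
    fin_cases i <;> simp at this ⊢ <;> omega

/-- pointwise comparison of lists of the same length -/
def leL : List ℕ → List ℕ → Bool
  | [], [] => true
  | a :: s, c :: t => Nat.ble a c && leL s t
  | _, _ => false

/-- digits of the code of an entry -/
def dg (n i j : ℕ) : ℕ := n / (125 ^ i * 5 ^ j) % 5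

/-- an entry of a table is correct -/
def entryOk (e : List ℕ × ℕ) : Bool :=
  match e with
  | ([s0, s1, s2, s3, s4, s5], n) =>
    Nat.beq s0 (5 * dg n 0 0 + 3 * dg n 0 1 + 2 * dg n 0 2) &&
    Nat.beq s1 (5 * dg n 1 0 + 3 * dg n 1 1 + 2 * dg n 1 2) &&
    Nat.beq s2 (5 * dg n 2 0 + 3 * dg n 2 1 + 2 * dg n 2 2) &&
    Nat.beq s3 (5 * dg n 3 0 + 3 * dg n 3 1 + 2 * dg n 3 2) &&
    Nat.beq s4 (5 * dg n 4 0 + 3 * dg n 4 1 + 2 * dg n 4 2) &&
    Nat.beq s5 (5 * dg n 5 0 + 3 * dg n 5 1 + 2 * dg n 5 2) &&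
    Nat.ble (dg n 0 0 + dg n 0 1 + dg n 0 2) 4 && Nat.ble (dg n 1 0 + dg n 1 1 + dg n 1 2) 4 &&
    Nat.ble (dg n 2 0 + dg n 2 1 + dg n 2 2) 4 && Nat.ble (dg n 3 0 + dg n 3 1 + dg n 3 2) 4 &&
    Nat.ble (dg n 4 0 + dg n 4 1 + dg n 4 2) 4 && Nat.ble (dg n 5 0 + dg n 5 1 + dg n 5 2) 4 &&
    Nat.beq (dg n 0 0 + dg n 1 0 + dg n 2 0 + dg n 3 0 + dg n 4 0 + dg n 5 0) 4 &&
    Nat.beq (dg n 0 1 + dg n 1 1 + dg n 2 1 + dg n 3 1 + dg n 4 1 + dg n 5 1) 8 &&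
    Nat.beq (dg n 0 2 + dg n 1 2 + dg n 2 2 + dg n 3 2 + dg n 4 2 + dg n 5 2) 8
  | _ => false

theorem good_of_counts {a b d : Fin 6 → ℕ} (h1 : ∀ i, a i + b i + d i ≤ 4) (h2 : ∑ i, a i = 4)
    (h3 : ∑ i, b i = 8) (h4 : ∑ i, d i = 8) {C : Fin 6 → ℤ}
    (h5 : ∀ i, 5 * (a i : ℤ) + 3 * (b i : ℤ) + 2 * (d i : ℤ) ≤ C i) : Good 4 C := by
  have hu : ∀ i, ∃ u, a i + b i + d i + u = 4 := fun i =>
    ⟨4 - (a i + b i + d i), Nat.add_sub_of_le (h1 i)⟩
  choose u hu using hu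
  refine ⟨a, b, d, u, hu, h2, h3, h4, ?_, h5⟩
  have h6 : ∑ i : Fin 6, (a i + b i + d i + u i) = ∑ i : Fin 6, 4 :=
    Finset.sum_congr rfl fun i _ => hu i
  rw [Finset.sum_add_distrib, Finset.sum_add_distrib, Finset.sum_add_distrib, h2, h3, h4] at h6
  simp only [Finset.sum_const, Finset.card_univ, Fintype.card_fin, smul_eq_mul] at h6
  omega

theorem entry_good {e : List ℕ × ℕ} (he : entryOk e = true) {c0 c1 c2 c3 c4 c5 : ℕ}
    (h : leL e.1 [c0, c1, c2, c3, c4, c5] = true) :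
    Good 4 ![(c0 : ℤ), c1, c2, c3, c4, c5] := by
  unfold entryOk at he
  split at he
  case h_2 => simp at he
  case h_1 s0 s1 s2 s3 s4 s5 n =>
    simp only [leL, Bool.and_eq_true, Nat.ble_eq, Nat.beq_eq] at h he
    obtain ⟨l0, l1, l2, l3, l4, l5, -⟩ := h
    obtain ⟨⟨⟨⟨⟨⟨⟨⟨⟨⟨⟨⟨⟨⟨e0, e1⟩, e2⟩, e3⟩, e4⟩, e5⟩, f0⟩, f1⟩, f2⟩, f3⟩, f4⟩, f5⟩, g0⟩, g1⟩, g2⟩ := he
    refine good_of_counts (a := fun i => dg n i 0) (b := fun i => dg n i 1)
      (d := fun i => dg n i 2) ?_ ?_ ?_ ?_ ?_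
    · intro i
      match i with
      | 0 => exact f0
      | 1 => exact f1
      | 2 => exact f2
      | 3 => exact f3
      | 4 => exact f4
      | 5 => exact f5
    · rw [Fin.sum_univ_six]
      exact g0
    · rw [Fin.sum_univ_six]
      exact g1
    · rw [Fin.sum_univ_six]
      exact g2
    · intro i
      match i with
      | 0 =>
        have : 5 * dg n 0 0 + 3 * dg n 0 1 + 2 * dg n 0 2 ≤ c0 := e0 ▸ l0
        have h' : 5 * (dg n 0 0 : ℤ) + 3 * (dg n 0 1 : ℤ) + 2 * (dg n 0 2 : ℤ) ≤ (c0 : ℤ) := by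
          exact_mod_cast this
        exact h'
      | 1 =>
        have : 5 * dg n 1 0 + 3 * dg n 1 1 + 2 * dg n 1 2 ≤ c1 := e1 ▸ l1
        have h' : 5 * (dg n 1 0 : ℤ) + 3 * (dg n 1 1 : ℤ) + 2 * (dg n 1 2 : ℤ) ≤ (c1 : ℤ) := by
          exact_mod_cast this
        exact h'
      | 2 =>
        have : 5 * dg n 2 0 + 3 * dg n 2 1 + 2 * dg n 2 2 ≤ c2 := e2 ▸ l2
        have h' : 5 * (dg n 2 0 : ℤ) + 3 * (dg n 2 1 : ℤ) + 2 * (dg n 2 2 : ℤ) ≤ (c2 : ℤ) := by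
          exact_mod_cast this
        exact h'
      | 3 =>
        have : 5 * dg n 3 0 + 3 * dg n 3 1 + 2 * dg n 3 2 ≤ c3 := e3 ▸ l3
        have h' : 5 * (dg n 3 0 : ℤ) + 3 * (dg n 3 1 : ℤ) + 2 * (dg n 3 2 : ℤ) ≤ (c3 : ℤ) := by
          exact_mod_cast this
        exact h'
      | 4 =>
        have : 5 * dg n 4 0 + 3 * dg n 4 1 + 2 * dg n 4 2 ≤ c4 := e4 ▸ l4
        have h' : 5 * (dg n 4 0 : ℤ) + 3 * (dg n 4 1 : ℤ) + 2 * (dg n 4 2 : ℤ) ≤ (c4 : ℤ) := by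
          exact_mod_cast this
        exact h'
      | 5 =>
        have : 5 * dg n 5 0 + 3 * dg n 5 1 + 2 * dg n 5 2 ≤ c5 := e5 ▸ l5
        have h' : 5 * (dg n 5 0 : ℤ) + 3 * (dg n 5 1 : ℤ) + 2 * (dg n 5 2 : ℤ) ≤ (c5 : ℤ) := by
          exact_mod_cast this
        exact h'

/-- all capacity vectors with total `62` and last entry `x5` dominate an entry of the table, and the
table is correct -/
def part (tab : List (List ℕ × ℕ)) (x5 : ℕ) : Bool :=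
  tab.all entryOk && (List.range 13).all fun x4 =>
    !(Nat.ble x5 x4 && Nat.ble 9 (x4 + x5)) || (List.range 14).all fun x3 =>
    !(Nat.ble x4 x3 && Nat.ble 18 (x3 + x4 + x5)) || (List.range 15).all fun x2 =>
    !(Nat.ble x3 x2 && Nat.ble 29 (x2 + x3 + x4 + x5)) || (List.range 17).all fun x1 =>
    !(Nat.ble x2 x1 && Nat.ble 41 (x1 + x2 + x3 + x4 + x5) &&
      Nat.ble (x1 + (x1 + x2 + x3 + x4 + x5)) 62) ||
    tab.any fun e => leL e.1 [62 - (x1 + x2 + x3 + x4 + x5), x1, x2, x3, x4, x5]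

theorem part0_ok : part tab0 0 = true := by decide +kernel

theorem part1_ok : part tab1 1 = true := by decide +kernel

theorem part2_ok : part tab2 2 = true := by decide +kernel

theorem part3_ok : part tab3 3 = true := by decide +kernel

theorem part4_ok : part tab4 4 = true := by decide +kernel

theorem part5_ok : part tab5 5 = true := by decide +kernel

theorem part6_ok : part tab6 6 = true := by decide +kernel

theorem part7_ok : part tab7 7 = true := by decide +kernel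

theorem part8_ok : part tab8 8 = true := by decide +kernel

theorem part9_ok : part tab9 9 = true := by decide +kernel

theorem part10_ok : part tab10 10 = true := by decide +kernel


theorem part_ok (x5 : ℕ) (h : x5 < 11) : ∃ tab, part tab x5 = true := by
  interval_cases x5
  · exact ⟨_, part0_ok⟩
  · exact ⟨_, part1_ok⟩
  · exact ⟨_, part2_ok⟩
  · exact ⟨_, part3_ok⟩
  · exact ⟨_, part4_ok⟩
  · exact ⟨_, part5_ok⟩
  · exact ⟨_, part6_ok⟩
  · exact ⟨_, part7_ok⟩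
  · exact ⟨_, part8_ok⟩
  · exact ⟨_, part9_ok⟩
  · exact ⟨_, part10_ok⟩

end Pool.Agent.Q38.BP
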