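import Pool.Agent.Q38.BP.Base

/-!
# Ball partitioning with weights 5, 3, 3, 2, 2, 0: all numbers of copies
-/

set_option autoImplicit false

namespace Pool.Agent.Q38.BP

/-- sorted capacities satisfying the inequalities for `d = 4` -/
def T4 (c0 c1 c2 c3 c4 c5 : ℤ) : Prop :=
  c1 ≤ c0 ∧ c2 ≤ c1 ∧ c3 ≤ c2 ∧ c4 ≤ c3 ∧ c5 ≤ c4 ∧ 0 ≤ c5 ∧ 9 ≤ c4 + c5 ∧ 18 ≤ c3 + c4 + c5 ∧
    29 ≤ c2 + c3 + c4 + c5 ∧ 41 ≤ c1 + c2 + c3 + c4 + c5 ∧ 62 ≤ c0 + c1 + c2 + c3 + c4 + c5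

theorem reduce {c0 c1 c2 c3 c4 c5 : ℤ} (h : T4 c0 c1 c2 c3 c4 c5)
    (hs : 62 < c0 + c1 + c2 + c3 + c4 + c5) :
    ∃ a0 a1 a2 a3 a4 a5 : ℤ, T4 a0 a1 a2 a3 a4 a5 ∧ a0 ≤ c0 ∧ a1 ≤ c1 ∧ a2 ≤ c2 ∧ a3 ≤ c3 ∧
      a4 ≤ c4 ∧ a5 ≤ c5 ∧ a0 + a1 + a2 + a3 + a4 + a5 = c0 + c1 + c2 + c3 + c4 + c5 - 1 := by
  unfold T4 at h
  by_cases h0 : c1 < c0
  · exact ⟨c0 - 1, c1, c2, c3, c4, c5, by unfold T4; omega, by omega⟩
  by_cases h1 : c2 < c1
  · exact ⟨c0, c1 - 1, c2, c3, c4, c5, by unfold T4; omega, by omega⟩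
  by_cases h2 : c3 < c2
  · exact ⟨c0, c1, c2 - 1, c3, c4, c5, by unfold T4; omega, by omega⟩
  by_cases h3 : c4 < c3
  · exact ⟨c0, c1, c2, c3 - 1, c4, c5, by unfold T4; omega, by omega⟩
  by_cases h4 : c5 < c4
  · exact ⟨c0, c1, c2, c3, c4 - 1, c5, by unfold T4; omega, by omega⟩
  exact ⟨c0, c1, c2, c3, c4, c5 - 1, by unfold T4; omega, by omega⟩

theorem exact_good {x0 x1 x2 x3 x4 x5 : ℕ} (h : T4 x0 x1 x2 x3 x4 x5)
    (hs : x0 + x1 + x2 + x3 + x4 + x5 = 62) :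
    Good 4 ![(x0 : ℤ), x1, x2, x3, x4, x5] := by
  unfold T4 at h
  obtain ⟨tab, hl⟩ := part_ok x5 (by omega)
  unfold part at hl
  rw [Bool.and_eq_true] at hl
  obtain ⟨hok, hl⟩ := hl
  simp only [List.all_eq_true, List.mem_range, Bool.or_eq_true, Bool.not_eq_true',
    Bool.and_eq_false_iff, List.any_eq_true] at hl
  have nb : ∀ {a b : ℕ}, a ≤ b → ¬ Nat.ble a b = false := by
    intro a b hab hb
    have : Nat.ble a b = true := Nat.ble_eq_true_of_le hab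
    rw [this] at hb
    simp at hb
  have h5 := hl x4 (by omega)
  rcases h5 with (h5 | h5) | h5
  · exact absurd h5 (nb (by omega))
  · exact absurd h5 (nb (by omega))
  have h3 := h5 x3 (by omega)
  rcases h3 with (h3 | h3) | h3
  · exact absurd h3 (nb (by omega))
  · exact absurd h3 (nb (by omega))
  have h2 := h3 x2 (by omega)
  rcases h2 with (h2 | h2) | h2
  · exact absurd h2 (nb (by omega))
  · exact absurd h2 (nb (by omega))
  have h1 := h2 x1 (by omega)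
  rcases h1 with ((h1 | h1) | h1) | h1
  · exact absurd h1 (nb (by omega))
  · exact absurd h1 (nb (by omega))
  · exact absurd h1 (nb (by omega))
  obtain ⟨e, he, hle⟩ := h1
  have hok := List.all_eq_true.1 hok e he
  have h62 : 62 - (x1 + x2 + x3 + x4 + x5) = x0 := by omega
  rw [h62] at hle
  exact entry_good hok hle

theorem t4_good : ∀ (n : ℕ) (c0 c1 c2 c3 c4 c5 : ℤ), T4 c0 c1 c2 c3 c4 c5 →
    c0 + c1 + c2 + c3 + c4 + c5 = 62 + n → Good 4 ![c0, c1, c2, c3, c4, c5] := by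
  intro n
  induction n with
  | zero =>
    intro c0 c1 c2 c3 c4 c5 h hs
    have h' := h
    unfold T4 at h'
    obtain ⟨x0, rfl⟩ := Int.eq_ofNat_of_zero_le (show 0 ≤ c0 by omega)
    obtain ⟨x1, rfl⟩ := Int.eq_ofNat_of_zero_le (show 0 ≤ c1 by omega)
    obtain ⟨x2, rfl⟩ := Int.eq_ofNat_of_zero_le (show 0 ≤ c2 by omega)
    obtain ⟨x3, rfl⟩ := Int.eq_ofNat_of_zero_le (show 0 ≤ c3 by omega)
    obtain ⟨x4, rfl⟩ := Int.eq_ofNat_of_zero_le (show 0 ≤ c4 by omega)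
    obtain ⟨x5, rfl⟩ := Int.eq_ofNat_of_zero_le (show 0 ≤ c5 by omega)
    exact exact_good h (by omega)
  | succ n ih =>
    intro c0 c1 c2 c3 c4 c5 h hs
    obtain ⟨a0, a1, a2, a3, a4, a5, ha, l0, l1, l2, l3, l4, l5, hsum⟩ := reduce h (by omega)
    have := ih a0 a1 a2 a3 a4 a5 ha (by omega)
    refine this.mono ?_
    intro i
    fin_cases i <;> simpa

theorem base_sorted {C : Fin 6 → ℤ} (hC : Antitone C) (h : RR 4 C) : Good 4 C := by
  have c01 : C 1 ≤ C 0 := hC (by decide)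
  have c12 : C 2 ≤ C 1 := hC (by decide)
  have c23 : C 3 ≤ C 2 := hC (by decide)
  have c34 : C 4 ≤ C 3 := hC (by decide)
  have c45 : C 5 ≤ C 4 := hC (by decide)
  have h1 := h {5}
  have h2 := h {4, 5}
  have h3 := h {3, 4, 5}
  have h4 := h {2, 3, 4, 5}
  have h5 := h {1, 2, 3, 4, 5}
  have h6 := h Finset.univ
  have e2 : ({4, 5} : Finset (Fin 6)).card = 2 := by decide
  have e3 : ({3, 4, 5} : Finset (Fin 6)).card = 3 := by decide
  have e4 : ({2, 3, 4, 5} : Finset (Fin 6)).card = 4 := by decide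
  have e5 : ({1, 2, 3, 4, 5} : Finset (Fin 6)).card = 5 := by decide
  have e6 : (Finset.univ : Finset (Fin 6)).card = 6 := by decide
  rw [Finset.card_singleton, Finset.sum_singleton] at h1
  rw [e2, Finset.sum_pair (by decide)] at h2
  rw [e3, Finset.sum_insert (by decide), Finset.sum_pair (by decide)] at h3
  rw [e4, Finset.sum_insert (by decide), Finset.sum_insert (by decide),
    Finset.sum_pair (by decide)] at h4
  rw [e5, Finset.sum_insert (by decide), Finset.sum_insert (by decide),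
    Finset.sum_insert (by decide), Finset.sum_pair (by decide)] at h5
  rw [e6, Fin.sum_univ_six] at h6
  simp only [tt, bb] at h1 h2 h3 h4 h5 h6
  have hT : T4 (C 0) (C 1) (C 2) (C 3) (C 4) (C 5) := by
    unfold T4
    omega
  have hn : C 0 + C 1 + C 2 + C 3 + C 4 + C 5 =
      62 + ((C 0 + C 1 + C 2 + C 3 + C 4 + C 5 - 62).toNat : ℤ) := by
    rw [Int.toNat_of_nonneg (by omega)]
    ring
  have := t4_good _ _ _ _ _ _ _ hT hn
  have hCe : C = ![C 0, C 1, C 2, C 3, C 4, C 5] := by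
    funext i
    fin_cases i <;> rfl
  rw [hCe]
  exact this

theorem RR.perm {d : ℤ} {C : Fin 6 → ℤ} (σ : Equiv.Perm (Fin 6)) (h : RR d C) : RR d (C ∘ σ) := by
  intro A
  have := h (A.map σ.toEmbedding)
  rw [Finset.card_map, Finset.sum_map] at this
  exact this

theorem exists_sort (C : Fin 6 → ℤ) : ∃ σ : Equiv.Perm (Fin 6), Antitone (C ∘ σ) := by
  refine ⟨Tuple.sort (fun i => - C i), ?_⟩
  have := Tuple.monotone_sort (fun i => - C i)
  intro i j hij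
  have := this hij
  simp only [Function.comp_apply] at this ⊢
  omega

theorem all_good : ∀ (n : ℕ) (C : Fin 6 → ℤ), RR ((n + 4 : ℕ) : ℤ) C → Good (n + 4) C := by
  intro n
  induction n with
  | zero =>
    intro C h
    obtain ⟨σ, hσ⟩ := exists_sort C
    refine Good.perm σ (base_sorted hσ ?_)
    have := h.perm σ
    simpa using this
  | succ n ih =>
    intro C h
    obtain ⟨σ, hσ⟩ := exists_sort C
    have h1 := h.perm σ
    have h2 : RR (((n + 4 : ℕ) : ℤ) + 1) (C ∘ σ) := by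
      have : (((n + 1 + 4 : ℕ)) : ℤ) = ((n + 4 : ℕ) : ℤ) + 1 := by push_cast; ring
      rw [← this]
      exact h1
    have h3 := rr_step (by push_cast; omega) hσ h2
    have h4 := ih _ h3
    have h5 : Good (n + 4 + 1) (C ∘ σ) := Good.step h4
    have h6 : n + 4 + 1 = n + 1 + 4 := by ring
    rw [h6] at h5
    exact Good.perm σ h5

/-- for `d ≥ 4` the inequalities imply feasibility -/
theorem good_of_sorted {d : ℕ} (hd : 4 ≤ d) {C : Fin 6 → ℤ} (hC : Antitone C)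
    (h1 : 0 ≤ C 5) (h2 : (d : ℤ) * 2 + 1 ≤ C 4 + C 5) (h3 : (d : ℤ) * 4 + 2 ≤ C 3 + C 4 + C 5)
    (h4 : (d : ℤ) * 7 + 1 ≤ C 2 + C 3 + C 4 + C 5)
    (h5 : (d : ℤ) * 10 + 1 ≤ C 1 + C 2 + C 3 + C 4 + C 5)
    (h6 : (d : ℤ) * 15 + 2 ≤ C 0 + C 1 + C 2 + C 3 + C 4 + C 5) : Good d C := by
  obtain ⟨n, rfl⟩ := Nat.exists_eq_add_of_le' hd
  apply all_good
  have c01 : C 1 ≤ C 0 := hC (by decide)
  have c12 : C 2 ≤ C 1 := hC (by decide)
  have c23 : C 3 ≤ C 2 := hC (by decide)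
  have c34 : C 4 ≤ C 3 := hC (by decide)
  have c45 : C 5 ≤ C 4 := hC (by decide)
  intro A
  have hs : ∑ i ∈ A, C i = ∑ i, if i ∈ A then C i else 0 := by
    rw [← Finset.sum_filter]
    simp
  have hc : A.card = ∑ i : Fin 6, if i ∈ A then 1 else 0 := by
    rw [← Finset.sum_filter]
    simp
  rw [hs, hc, Fin.sum_univ_six, Fin.sum_univ_six]
  by_cases m0 : (0 : Fin 6) ∈ A <;> by_cases m1 : (1 : Fin 6) ∈ A <;>
  by_cases m2 : (2 : Fin 6) ∈ A <;> by_cases m3 : (3 : Fin 6) ∈ A <;>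
  by_cases m4 : (4 : Fin 6) ∈ A <;> by_cases m5 : (5 : Fin 6) ∈ A <;>
  simp only [m0, m1, m2, m3, m4, m5, if_true, if_false, tt, bb, Nat.add_zero, Nat.zero_add,
    Nat.reduceAdd] <;> omega

end Pool.Agent.Q38.BP
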