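import Mathlib

/-!
# Ball partitioning with weights 5, 3, 3, 2, 2, 0: the induction step
-/

set_option autoImplicit false

namespace Pool.Agent.Q38.BP

/-- minimal weight of `m` balls of different kinds -/
def tt : ℕ → ℤ
  | 0 => 0
  | 1 => 0
  | 2 => 2
  | 3 => 4
  | 4 => 7
  | 5 => 10
  | _ => 15

/-- the constants -/
def bb : ℕ → ℤ
  | 0 => 0
  | 1 => 0
  | 2 => 1
  | 3 => 2
  | 4 => 1
  | 5 => 1
  | _ => 2

/-- every set of `m` capacities has sum at least `d * tt m + bb m` -/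
def RR (d : ℤ) (C : Fin 6 → ℤ) : Prop :=
  ∀ A : Finset (Fin 6), d * tt A.card + bb A.card ≤ ∑ i ∈ A, C i

theorem rr_step {d : ℤ} (hd : 2 ≤ d) {C : Fin 6 → ℤ} (hC : Antitone C)
    (h : RR (d + 1) C) : RR d (fun i => C i - ![5, 3, 3, 2, 2, 0] i) := by
  have c01 : C 1 ≤ C 0 := hC (by decide)
  have c12 : C 2 ≤ C 1 := hC (by decide)
  have c23 : C 3 ≤ C 2 := hC (by decide)
  have c34 : C 4 ≤ C 3 := hC (by decide)
  have c45 : C 5 ≤ C 4 := hC (by decide)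
  have h1 := h {5}
  have h2 := h {4, 5}
  have h3 := h {3, 4, 5}
  have h4 := h {2, 3, 4, 5}
  have h5 := h {1, 2, 3, 4, 5}
  have h6 := h Finset.univ
  have e2 : ({4, 5} : Finset (Fin 6)).card = 2 := by decide
  have e3 : ({3, 4, 5} : Finset (Fin 6)).card = 3 := by decide
  have e4 : ({2, 3, 4, 5} : Finset (Fin 6)).card = 4 := by decide
  have e5 : ({1, 2, 3, 4, 5} : Finset (Fin 6)).card = 5 := by decide
  have e6 : (Finset.univ : Finset (Fin 6)).card = 6 := by decide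
  rw [Finset.card_singleton, Finset.sum_singleton] at h1
  rw [e2, Finset.sum_pair (by decide)] at h2
  rw [e3, Finset.sum_insert (by decide), Finset.sum_pair (by decide)] at h3
  rw [e4, Finset.sum_insert (by decide), Finset.sum_insert (by decide),
    Finset.sum_pair (by decide)] at h4
  rw [e5, Finset.sum_insert (by decide), Finset.sum_insert (by decide),
    Finset.sum_insert (by decide), Finset.sum_pair (by decide)] at h5
  rw [e6, Fin.sum_univ_six] at h6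
  simp only [tt, bb] at h1 h2 h3 h4 h5 h6
  intro A
  have hs : ∑ i ∈ A, (C i - (![5, 3, 3, 2, 2, 0] : Fin 6 → ℤ) i) =
      ∑ i, if i ∈ A then (C i - (![5, 3, 3, 2, 2, 0] : Fin 6 → ℤ) i) else 0 := by
    rw [← Finset.sum_filter]
    simp
  have hc : A.card = ∑ i : Fin 6, if i ∈ A then 1 else 0 := by
    rw [← Finset.sum_filter]
    simp
  rw [hs, hc, Fin.sum_univ_six, Fin.sum_univ_six]
  have v0 : (![5, 3, 3, 2, 2, 0] : Fin 6 → ℤ) 0 = 5 := rfl
  have v1 : (![5, 3, 3, 2, 2, 0] : Fin 6 → ℤ) 1 = 3 := rfl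
  have v2 : (![5, 3, 3, 2, 2, 0] : Fin 6 → ℤ) 2 = 3 := rfl
  have v3 : (![5, 3, 3, 2, 2, 0] : Fin 6 → ℤ) 3 = 2 := rfl
  have v4 : (![5, 3, 3, 2, 2, 0] : Fin 6 → ℤ) 4 = 2 := rfl
  have v5 : (![5, 3, 3, 2, 2, 0] : Fin 6 → ℤ) 5 = 0 := rfl
  rw [v0, v1, v2, v3, v4, v5]
  by_cases m0 : (0 : Fin 6) ∈ A <;> by_cases m1 : (1 : Fin 6) ∈ A <;>
  by_cases m2 : (2 : Fin 6) ∈ A <;> by_cases m3 : (3 : Fin 6) ∈ A <;>
  by_cases m4 : (4 : Fin 6) ∈ A <;> by_cases m5 : (5 : Fin 6) ∈ A <;>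
  simp only [m0, m1, m2, m3, m4, m5, if_true, if_false, tt, bb, Nat.add_zero, Nat.zero_add,
    Nat.reduceAdd] <;> omega

end Pool.Agent.Q38.BP
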